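import Pool.Agent.helper7.AL.Spec

set_option autoImplicit false

/-! Row ba:LCB (MP_bf63dc_nt): admissibility of the forms, second version. -/

namespace Pool.Agent.AL

open Finset Pool.Agent.helper85.FC Pool.Agent.helper11.MK

/-- Modulo a prime `p` which divides `W` the forms with `z ∈ X ∪ Y` are the forms with `0` and `u₀`. -/
theorem LCB_red (p W : ℕ) (hpW : p ∣ W) (X Y : Finset ℤ) (u₀ t : ℤ) (hX : ∀ x ∈ X, (W : ℤ) ∣ x)
    (hY : ∀ y ∈ Y, (W : ℤ) ∣ y - u₀) (h1 : ¬ (p : ℤ) ∣ t) (h2 : ¬ (p : ℤ) ∣ t + u₀) :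
    ∀ z ∈ X ∪ Y, ¬ (p : ℤ) ∣ t + z := by
  have hpW' : (p : ℤ) ∣ (W : ℤ) := by exact_mod_cast hpW
  intro z hz hd
  rcases mem_union.1 hz with h | h
  · have h3 := hpW'.trans (hX z h)
    apply h1
    have h4 := dvd_sub hd h3
    have e : t + z - z = t := by ring
    rwa [e] at h4
  · have h3 := hpW'.trans (hY z h)
    apply h2
    have h4 := dvd_sub hd h3
    have e : t + z - (z - u₀) = t + u₀ := by ring
    rwa [e] at h4

theorem LCB (h : LNV_stmt) : LCB_stmt := by
  intro k a b X₁ Y₁ X₂ Y₂ u₀ g g' ha hb c1 c2 c3 c4 hX hY hg p hp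
  obtain ⟨W, hW⟩ : ∃ W : ℕ, W = 6 * a * b * (4 * k).factorial := ⟨_, rfl⟩
  rw [← hW] at hX hY
  have hX1 : ∀ x ∈ X₁, (W : ℤ) ∣ x := fun x hx => hX x (mem_union_left _ hx)
  have hX2 : ∀ x ∈ X₂, (W : ℤ) ∣ x := fun x hx => hX x (mem_union_right _ hx)
  have hY1 : ∀ y ∈ Y₁, (W : ℤ) ∣ y - u₀ := fun y hy => hY y (mem_union_left _ hy)
  have hY2 : ∀ y ∈ Y₂, (W : ℤ) ∣ y - u₀ := fun y hy => hY y (mem_union_right _ hy)
  by_cases hd : p ∣ 6 * a * b
  · obtain ⟨e1, e2, e3, e4⟩ := hg p hp hd
    have hpW : p ∣ W := by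
      rw [hW]
      exact Dvd.dvd.mul_right hd _
    refine ⟨0, ?_, ?_⟩
    · intro z hz
      have e : (b : ℤ) * ((0 : ℕ) : ℤ) + (g + z) = g + z := by push_cast; ring
      rw [e]
      exact LCB_red p W hpW X₁ Y₁ u₀ g hX1 hY1 e1 e2 z hz
    · intro z hz
      have e : (a : ℤ) * ((0 : ℕ) : ℤ) + (g' + z) = g' + z := by push_cast; ring
      rw [e]
      exact LCB_red p W hpW X₂ Y₂ u₀ g' hX2 hY2 e3 e4 z hz
  · have hpa : ¬ p ∣ a := fun hh => hd ((hh.mul_left 6).mul_right b)
    have hpb : ¬ p ∣ b := fun hh => hd (hh.mul_left (6 * a))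
    have hp5 : 5 ≤ p := by
      by_contra hcon
      have h6 : ¬ p ∣ 6 := fun hh => hd ((hh.mul_right a).mul_right b)
      have h2 := hp.two_le
      interval_cases p
      · exact h6 (by norm_num)
      · exact h6 (by norm_num)
      · exact absurd hp (by norm_num)
    by_cases hpk : p ≤ 4 * k
    · have hpW : p ∣ W := by
        rw [hW]
        exact Dvd.dvd.mul_left (Nat.dvd_factorial hp.pos hpk) _
      obtain ⟨n, hn⟩ := h p {(b, g), (b, g + u₀), (a, g'), (a, g' + u₀)} hp
        (lt_of_le_of_lt Finset.card_le_four (by omega)) (by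
          intro v hv hv1
          exfalso
          simp only [mem_insert, mem_singleton] at hv
          rcases hv with rfl | rfl | rfl | rfl
          · exact hpb hv1
          · exact hpb hv1
          · exact hpa hv1
          · exact hpa hv1)
      refine ⟨n, ?_, ?_⟩
      · intro z hz
        have h1 := hn (b, g) (by simp)
        have h2 := hn (b, g + u₀) (by simp)
        simp only at h1 h2
        have e : (b : ℤ) * n + (g + z) = ((b : ℤ) * n + g) + z := by ring
        rw [e]
        refine LCB_red p W hpW X₁ Y₁ u₀ _ hX1 hY1 h1 ?_ z hz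
        have e' : (b : ℤ) * n + g + u₀ = (b : ℤ) * n + (g + u₀) := by ring
        rw [e']
        exact h2
      · intro z hz
        have h1 := hn (a, g') (by simp)
        have h2 := hn (a, g' + u₀) (by simp)
        simp only at h1 h2
        have e : (a : ℤ) * n + (g' + z) = ((a : ℤ) * n + g') + z := by ring
        rw [e]
        refine LCB_red p W hpW X₂ Y₂ u₀ _ hX2 hY2 h1 ?_ z hz
        have e' : (a : ℤ) * n + g' + u₀ = (a : ℤ) * n + (g' + u₀) := by ring
        rw [e']
        exact h2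
    · obtain ⟨n, hn⟩ := h p ((X₁ ∪ Y₁).image (fun z => (b, g + z)) ∪ (X₂ ∪ Y₂).image (fun z => (a, g' + z))) hp
        (by
          have q1 := Finset.card_union_le ((X₁ ∪ Y₁).image (fun z : ℤ => (b, g + z)))
            ((X₂ ∪ Y₂).image (fun z : ℤ => (a, g' + z)))
          have q2 := Finset.card_image_le (s := X₁ ∪ Y₁) (f := fun z : ℤ => (b, g + z))
          have q3 := Finset.card_image_le (s := X₂ ∪ Y₂) (f := fun z : ℤ => (a, g' + z))
          have q4 := Finset.card_union_le X₁ Y₁
          have q5 := Finset.card_union_le X₂ Y₂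
          omega) (by
          intro v hv hv1
          exfalso
          rcases mem_union.1 hv with hv | hv
          · obtain ⟨z, -, rfl⟩ := mem_image.1 hv
            exact hpb hv1
          · obtain ⟨z, -, rfl⟩ := mem_image.1 hv
            exact hpa hv1)
      refine ⟨n, ?_, ?_⟩
      · intro z hz
        exact hn (b, g + z) (mem_union_left _ (mem_image_of_mem _ hz))
      · intro z hz
        exact hn (a, g' + z) (mem_union_right _ (mem_image_of_mem _ hz))

end Pool.Agent.AL
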