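import Pool.Agent.helper7.AL.Spec

set_option autoImplicit false

/-! Row ba:TRC (MP_bf63dc_nt): two forms which are prime together give a true case. -/

namespace Pool.Agent.AL

open Finset Pool.Agent.helper85.FC Pool.Agent.helper11.MK

/-- If `a x - b y = c`, `b` coprime to `a`, and infinitely many `q` in a progression are prime with `a p - b q = c`, then `a` is
coprime to `c`. -/
theorem TRC_cop (a b : ℕ) (c : ℤ) (hab : Nat.Coprime a b) (n m : ℕ) (p q : ℕ → ℕ) (hq : ∀ k, k = n ∨ k = m → (q k).Prime)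
    (he : ∀ k, k = n ∨ k = m → (a : ℤ) * p k - b * q k = c) (hne : q n ≠ q m) : IsCoprime (a : ℤ) c := by
  rw [Int.isCoprime_iff_gcd_eq_one]
  by_contra hcon
  have h1 : ¬ Nat.Coprime a c.natAbs := hcon
  rw [Nat.Prime.not_coprime_iff_dvd] at h1
  obtain ⟨l, hl, hla, hlc⟩ := h1
  have hlc' : (l : ℤ) ∣ c := Int.natCast_dvd.2 hlc
  have hlb : ¬ l ∣ b := by
    intro h
    have h2 := Nat.dvd_gcd hla h
    rw [Nat.Coprime.gcd_eq_one hab] at h2
    exact hl.one_lt.ne' (Nat.dvd_one.1 h2)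
  have key : ∀ k, k = n ∨ k = m → q k = l := by
    intro k hk
    have h2 : (l : ℤ) ∣ (b : ℤ) * q k := by
      have h3 : (b : ℤ) * q k = a * p k - c := by
        have := he k hk
        linarith
      rw [h3]
      exact dvd_sub (Dvd.dvd.mul_right (by exact_mod_cast hla) _) hlc'
    have h4 : l ∣ b * q k := by exact_mod_cast h2
    rcases (hl.dvd_mul).1 h4 with h5 | h5
    · exact absurd h5 hlb
    · exact ((Nat.prime_dvd_prime_iff_eq hl (hq k hk)).1 h5).symm
  exact hne ((key n (Or.inl rfl)).trans (key m (Or.inr rfl)).symm)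

theorem TRC : TRC_stmt := by
  intro g a b x y hg ha hb hab hne hB
  have hgb : 0 < g * b := Nat.mul_pos hg hb
  have hga : 0 < g * a := Nat.mul_pos hg ha
  obtain ⟨S, hSd⟩ : ∃ S : Set ℕ, S = {n : ℕ | (((g * b : ℕ) : ℤ) * n + x).toNat.Prime ∧ (((g * a : ℕ) : ℤ) * n + y).toNat.Prime} :=
    ⟨_, rfl⟩
  have hS : S.Infinite := by rw [hSd]; exact hB
  obtain ⟨p, hp⟩ : ∃ p : ℕ → ℕ, p = fun n : ℕ => (((g * b : ℕ) : ℤ) * n + x).toNat := ⟨_, rfl⟩
  obtain ⟨q, hq⟩ : ∃ q : ℕ → ℕ, q = fun n : ℕ => (((g * a : ℕ) : ℤ) * n + y).toNat := ⟨_, rfl⟩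
  have hpp : ∀ n ∈ S, (p n).Prime ∧ (q n).Prime := by
    intro n hn
    rw [hSd] at hn
    rw [hp, hq]
    exact hn
  have ep : ∀ n ∈ S, (p n : ℤ) = ((g * b : ℕ) : ℤ) * n + x := by
    intro n hn
    have h1 := (hpp n hn).1.pos
    rw [hp] at h1 ⊢
    simp only at h1 ⊢
    exact Int.toNat_of_nonneg (by omega)
  have eq' : ∀ n ∈ S, (q n : ℤ) = ((g * a : ℕ) : ℤ) * n + y := by
    intro n hn
    have h1 := (hpp n hn).2.pos
    rw [hq] at h1 ⊢
    simp only at h1 ⊢
    exact Int.toNat_of_nonneg (by omega)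
  have hc : ∀ n ∈ S, (a : ℤ) * p n - b * q n = a * x - b * y := by
    intro n hn
    rw [ep n hn, eq' n hn]
    push_cast
    ring
  have injp : ∀ n ∈ S, ∀ m ∈ S, p n = p m → n = m := by
    intro n hn m hm h
    have h1 : ((g * b : ℕ) : ℤ) * n + x = ((g * b : ℕ) : ℤ) * m + x := by
      rw [← ep n hn, ← ep m hm, h]
    have h2 : ((g * b : ℕ) : ℤ) * n = ((g * b : ℕ) : ℤ) * m := by linarith
    exact_mod_cast mul_left_cancel₀ (by exact_mod_cast hgb.ne') h2
  have injq : ∀ n ∈ S, ∀ m ∈ S, q n = q m → n = m := by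
    intro n hn m hm h
    have h1 : ((g * a : ℕ) : ℤ) * n + y = ((g * a : ℕ) : ℤ) * m + y := by
      rw [← eq' n hn, ← eq' m hm, h]
    have h2 : ((g * a : ℕ) : ℤ) * n = ((g * a : ℕ) : ℤ) * m := by linarith
    exact_mod_cast mul_left_cancel₀ (by exact_mod_cast hga.ne') h2
  obtain ⟨n, hn, m, hm, hnm⟩ := hS.nontrivial
  have hk : ∀ k, k = n ∨ k = m → k ∈ S := by
    rintro k (rfl | rfl)
    · exact hn
    · exact hm
  refine ⟨ha, hb, sub_ne_zero.2 hne, hab, ?_, ?_, ?_, ?_⟩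
  · exact TRC_cop a b _ hab n m p q (fun k h => (hpp k (hk k h)).2) (fun k h => hc k (hk k h))
      (fun h => hnm (injq n hn m hm h))
  · have h1 : IsCoprime (b : ℤ) ((b : ℤ) * y - a * x) := TRC_cop b a _ hab.symm n m q p
      (fun k h => (hpp k (hk k h)).1) (fun k h => by have := hc k (hk k h); linarith)
      (fun h => hnm (injp n hn m hm h))
    have h2 : (a : ℤ) * x - b * y = -((b : ℤ) * y - a * x) := by ring
    rw [h2]
    exact h1.neg_right
  · rintro ⟨hao, hbo, hco⟩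
    obtain ⟨k, hkS, hkb⟩ := hS.exists_gt (x.natAbs + y.natAbs + 3)
    have big : ∀ (s : ℕ) (z : ℤ), 0 < s → z.natAbs + 3 < k → (3 : ℤ) ≤ (s : ℤ) * k + z := by
      intro s z hs hz
      have h1 : (1 : ℤ) ≤ s := by exact_mod_cast hs
      have h2 : (1 : ℤ) * k ≤ (s : ℤ) * k := mul_le_mul_of_nonneg_right h1 (by positivity)
      have h3 : (k : ℤ) > z.natAbs + 3 := by exact_mod_cast hz
      have h4 : -(z.natAbs : ℤ) ≤ z := by
        rw [Int.natCast_natAbs]
        exact neg_abs_le z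
      linarith
    have p3 : 3 ≤ p k := by
      have := big (g * b) x hgb (by omega)
      rw [← ep k hkS] at this
      exact_mod_cast this
    have q3 : 3 ≤ q k := by
      have := big (g * a) y hga (by omega)
      rw [← eq' k hkS] at this
      exact_mod_cast this
    have po : Odd (p k) := (hpp k hkS).1.odd_of_ne_two (by omega)
    have qo : Odd (q k) := (hpp k hkS).2.odd_of_ne_two (by omega)
    have h1 : Odd ((a : ℤ) * p k) := by exact_mod_cast hao.mul po
    have h2 : Odd ((b : ℤ) * q k) := by exact_mod_cast hbo.mul qo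
    have h3 : Even ((a : ℤ) * p k - b * q k) := h1.sub_odd h2
    rw [hc k hkS] at h3
    exact (Int.not_even_iff_odd.mpr hco) h3
  · have hinj : Set.InjOn (fun k : ℕ => (p k, q k)) S := by
      intro k hk k' hk' h
      simp only [Prod.mk.injEq] at h
      exact injp k hk k' hk' h.1
    refine (hS.image hinj).mono ?_
    rintro _ ⟨k, hk, rfl⟩
    exact ⟨(hpp k hk).1, (hpp k hk).2, hc k hk⟩

end Pool.Agent.AL
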