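import Pool.Agent.helper7.AL.SpecD

/-!
# Row ba:DUA (helper45): the duality theorem for the slopes 1
-/

set_option autoImplicit false

namespace Pool.Agent.LD

open Finset Pool.Agent.helper85.FC Pool.Agent.AT

theorem DUA (h : LDD_stmt) : DUA_stmt := by
  intro θ
  by_cases hA : ∀ k : ℕ, 1 ≤ k → ∃ K : ℕ, BoxT θ k (fun _ => 1) K
  · exact Or.inl hA
  · right
    push Not at hA
    obtain ⟨k, hk, hK⟩ := hA
    intro m μ hm hμ
    obtain ⟨K, -, hK2⟩ := h k m hk hm
    rcases hK2 θ (fun _ => 1) (fun _ => one_pos) with h1 | h1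
    · exact absurd h1 (hK K)
    · obtain ⟨I, i, δ, hδ, hI, hX⟩ := h1 μ hμ
      exact ⟨I, fun _ => 0, δ, hδ, hI, hX⟩

end Pool.Agent.LD
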