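import Mathlib

set_option autoImplicit false

namespace Pool.Agent.helper45.AL

open Filter Topology

variable {X Y Z W : Type*} [NormedAddCommGroup X] [NormedSpace ℝ X] [NormedAddCommGroup Y] [NormedSpace ℝ Y]
  [NormedAddCommGroup Z] [NormedSpace ℝ Z] [NormedAddCommGroup W] [NormedSpace ℝ W]

theorem bil (H : X × Y × Z → W) (hH : ContDiffAt ℝ 2 H 0)
    (hx : ∀ᶠ p in 𝓝 (0 : X × Y × Z), p.1 = 0 → H p = 0)
    (hy : ∀ᶠ p in 𝓝 (0 : X × Y × Z), p.2.1 = 0 → H p = 0) :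
    ∃ C : ℝ, ∀ᶠ p in 𝓝 (0 : X × Y × Z), ‖H p‖ ≤ C * ‖p.1‖ * ‖p.2.1‖ := by
  have h1 : ContDiffAt ℝ 1 (fderiv ℝ H) 0 := hH.fderiv_right (by norm_num)
  obtain ⟨K, t, ht, hK⟩ := h1.exists_lipschitzOnWith
  have hd : ∀ᶠ p in 𝓝 (0 : X × Y × Z), DifferentiableAt ℝ H p := by
    have := hH.eventually (by decide)
    exact this.mono fun p hp => hp.differentiableAt (by norm_num)
  obtain ⟨ε, hε, hb⟩ := Metric.eventually_nhds_iff_ball.1 ((hd.and (hx.and hy)).and ht)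
  refine ⟨K, Metric.eventually_nhds_iff_ball.2 ⟨ε, hε, ?_⟩⟩
  rintro ⟨x, y, z⟩ hp
  simp only
  have hxy : ‖x‖ < ε ∧ ‖y‖ < ε ∧ ‖z‖ < ε := by
    simpa [Prod.norm_def, mem_ball_zero_iff] using hp
  obtain ⟨hx0, hy0, hz0⟩ := hxy
  have mem : ∀ s : X, ‖s‖ < ε → ∀ y' : Y, ‖y'‖ < ε → (s, y', z) ∈ Metric.ball (0 : X × Y × Z) ε := by
    intro s hs y' hy'
    simp only [mem_ball_zero_iff, Prod.norm_def, sup_lt_iff]
    exact ⟨hs, hy', hz0⟩
  -- derivative in the first variable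
  have hder : ∀ s : X, ‖s‖ < ε → ∀ y' : Y, ‖y'‖ < ε →
      HasFDerivAt (fun s' : X => H (s', y', z))
        ((fderiv ℝ H (s, y', z)).comp (ContinuousLinearMap.inl ℝ X (Y × Z))) s := by
    intro s hs y' hy'
    have hdiff := (hb _ (mem s hs y' hy')).1.1
    have hline : HasFDerivAt (fun s' : X => (s', y', z)) (ContinuousLinearMap.inl ℝ X (Y × Z)) s := by
      exact (hasFDerivAt_id s).prodMk (hasFDerivAt_const (y', z) s)
    exact hdiff.hasFDerivAt.comp s hline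
  have hzero : ∀ s : X, ‖s‖ < ε →
      (fderiv ℝ H (s, (0 : Y), z)).comp (ContinuousLinearMap.inl ℝ X (Y × Z)) = 0 := by
    intro s hs
    have h0 : (fun s' : X => H (s', (0 : Y), z)) =ᶠ[𝓝 s] fun _ => 0 := by
      have : ∀ᶠ s' in 𝓝 s, ‖s'‖ < ε := (isOpen_lt continuous_norm continuous_const).mem_nhds hs
      filter_upwards [this] with s' hs'
      exact (hb _ (mem s' hs' 0 (by simpa using hε))).1.2.2 rfl
    have e1 := hder s hs 0 (by simpa using hε)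
    have e2 : HasFDerivAt (fun s' : X => H (s', (0 : Y), z)) (0 : X →L[ℝ] W) s :=
      (hasFDerivAt_const (0 : W) s).congr_of_eventuallyEq h0
    exact e1.unique e2
  have hbound : ∀ s : X, ‖s‖ < ε →
      ‖(fderiv ℝ H (s, y, z)).comp (ContinuousLinearMap.inl ℝ X (Y × Z))‖ ≤ K * ‖y‖ := by
    intro s hs
    have e : (fderiv ℝ H (s, y, z)).comp (ContinuousLinearMap.inl ℝ X (Y × Z)) =
        (fderiv ℝ H (s, y, z) - fderiv ℝ H (s, (0 : Y), z)).comp
          (ContinuousLinearMap.inl ℝ X (Y × Z)) := by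
      rw [ContinuousLinearMap.sub_comp, hzero s hs, sub_zero]
    rw [e]
    have hL := hK.dist_le_mul _ (hb _ (mem s hs y hy0)).2 _ (hb _ (mem s hs 0 (by simpa using hε))).2
    have hdist : dist ((s, y, z) : X × Y × Z) (s, 0, z) = ‖y‖ := by
      simp [Prod.dist_eq]
    rw [hdist, dist_eq_norm] at hL
    calc ‖(fderiv ℝ H (s, y, z) - fderiv ℝ H (s, (0 : Y), z)).comp
          (ContinuousLinearMap.inl ℝ X (Y × Z))‖
        ≤ ‖fderiv ℝ H (s, y, z) - fderiv ℝ H (s, (0 : Y), z)‖ *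
          ‖ContinuousLinearMap.inl ℝ X (Y × Z)‖ := ContinuousLinearMap.opNorm_comp_le _ _
      _ ≤ ‖fderiv ℝ H (s, y, z) - fderiv ℝ H (s, (0 : Y), z)‖ * 1 := by
          apply mul_le_mul_of_nonneg_left _ (norm_nonneg _)
          exact ContinuousLinearMap.norm_inl_le_one ℝ X (Y × Z)
      _ ≤ K * ‖y‖ := by rw [mul_one]; exact hL
  have mvt := (convex_ball (0 : X) ε).norm_image_sub_le_of_norm_hasFDerivWithin_le
    (f := fun s' : X => H (s', y, z)) (C := K * ‖y‖)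
    (fun s hs => (hder s (by simpa using hs) y hy0).hasFDerivWithinAt)
    (fun s hs => hbound s (by simpa using hs)) (Metric.mem_ball_self hε)
    (show x ∈ Metric.ball (0 : X) ε by simpa using hx0)
  have hH0 : H ((0 : X), y, z) = 0 := (hb _ (mem 0 (by simpa using hε) y hy0)).1.2.1 rfl
  simp only [hH0, sub_zero] at mvt
  calc ‖H (x, y, z)‖ ≤ K * ‖y‖ * ‖x‖ := mvt
    _ = K * ‖x‖ * ‖y‖ := by ring

end Pool.Agent.helper45.AL
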