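import Pool.Agent.Results.MP_e88537_al.NilpotentLoops

set_option autoImplicit false

universe u

namespace Pool.Agent.helper45.AL

open Pool.Agent.Results.MP_e88537_al.NilpotentLoops

theorem filtered {G : Type u} [Mul G] {i : G → G} (h : Sys G i) (o : G) (ho1 : ∀ x : G, x * o = x)
    (hoi : ∀ x : G, x * i x = o) (θ : ℕ → Setoid G)
    (hmul : ∀ k a b c d, (θ k).r a b → (θ k).r c d → (θ k).r (a * c) (b * d))
    (h0 : ∀ a b, (θ 0).r a b)
    (hn : ∀ k n, (θ k).r n o → ∀ x y, (θ (k + 1)).r ((n * x) * y) (n * (x * y)) ∧
      (θ (k + 1)).r ((x * n) * y) (x * (n * y)) ∧ (θ (k + 1)).r ((x * y) * n) (x * (y * n))) :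
    ∀ k x y z, (θ k).r ((x * (y * z)) * x) ((x * y) * (z * x)) := by
  intro k
  induction k with
  | zero => intro x y z; exact h0 _ _
  | succ k ih =>
    have hoi' : ∀ x : G, i x * x = o := by
      intro x
      have := hoi (i x)
      rwa [h.ii] at this
    have hi : ∀ k a b, (θ k).r a b → (θ k).r (i a) (i b) := by
      intro k a b hab
      have e1 : i b = i a * (a * i b) := (h.l a (i b)).symm
      have e2 : (θ k).r (i a * (a * i b)) (i a * (b * i b)) :=
        hmul k _ _ _ _ ((θ k).refl _) (hmul k _ _ _ _ hab ((θ k).refl _))
      rw [← e1, hoi, ho1] at e2
      exact (θ k).symm e2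
    letI S : Setoid G := θ (k + 1)
    letI M : Mul (Quotient S) := ⟨Quotient.map₂ (fun a b => a * b) (fun a b hab c d hcd => hmul (k + 1) a b c d hab hcd)⟩
    let i' : Quotient S → Quotient S := Quotient.map i (fun a b hab => hi (k + 1) a b hab)
    have sys : Sys (Quotient S) i' := by
      refine ⟨?_, ?_, ?_, ?_, ?_, ?_, ?_, ?_, ?_⟩
      · intro x y
        induction x using Quotient.ind
        induction y using Quotient.ind
        exact congrArg _ (h.l _ _)
      · intro x y
        induction x using Quotient.ind
        induction y using Quotient.ind
        exact congrArg _ (h.l' _ _)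
      · intro x y
        induction x using Quotient.ind
        induction y using Quotient.ind
        exact congrArg _ (h.r _ _)
      · intro x y
        induction x using Quotient.ind
        induction y using Quotient.ind
        exact congrArg _ (h.r' _ _)
      · intro x
        induction x using Quotient.ind
        exact congrArg _ (h.ii _)
      · intro x y
        induction x using Quotient.ind
        induction y using Quotient.ind
        exact congrArg _ (h.im _ _)
      · intro x y
        induction x using Quotient.ind
        induction y using Quotient.ind
        exact congrArg _ (h.fl _ _)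
      · intro x y z
        induction x using Quotient.ind
        induction y using Quotient.ind
        induction z using Quotient.ind
        exact congrArg _ (h.s _ _ _)
      · intro x y z
        induction x using Quotient.ind
        induction y using Quotient.ind
        induction z using Quotient.ind
        exact congrArg _ (h.s' _ _ _)
    have hM : Moufang (Quotient S) := by
      apply moufang_of sys
      apply core sys (fun q => ∃ n, Quotient.mk S n = q ∧ (θ k).r n o)
      · rintro q ⟨n, rfl, hno⟩ x y
        induction x using Quotient.ind
        induction y using Quotient.ind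
        exact ⟨Quotient.sound (hn k n hno _ _).1, Quotient.sound (hn k n hno _ _).2.1,
          Quotient.sound (hn k n hno _ _).2.2⟩
      · rintro q x ⟨n, rfl, hno⟩
        induction x using Quotient.ind with
        | _ x =>
        refine ⟨(i x * n) * x, rfl, ?_⟩
        have e := hmul k _ _ _ _ (hmul k _ _ _ _ ((θ k).refl (i x)) hno) ((θ k).refl x)
        rw [ho1, hoi'] at e
        exact e
      · intro z p y
        induction z using Quotient.ind with
        | _ z =>
        induction p using Quotient.ind with
        | _ p =>
        induction y using Quotient.ind with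
        | _ y =>
        refine ⟨Quotient.mk S ((z * ((p * y) * z)) * i ((z * p) * (y * z))), ⟨_, rfl, ?_⟩, ?_⟩
        · have e := hmul k _ _ _ _ (ih z p y) ((θ k).refl (i ((z * p) * (y * z))))
          rw [hoi, ← h.fl] at e
          exact e
        · exact congrArg _ (h.r' _ _).symm
    intro x y z
    exact Quotient.exact (hM (Quotient.mk S x) (Quotient.mk S y) (Quotient.mk S z))

end Pool.Agent.helper45.AL
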