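import Mathlib

set_option autoImplicit false

namespace Pool.Agent.helper45.AL

open Filter Topology Asymptotics

variable {V W : Type*} [NormedAddCommGroup V] [NormedSpace ℝ V] [NormedAddCommGroup W] [NormedSpace ℝ W]

/-- An analytic function of one real variable that vanishes to infinite order at `0` vanishes near `0`. -/
theorem flat_one (g : ℝ → W) (hg : AnalyticAt ℝ g 0)
    (h : ∀ k : ℕ, g =O[𝓝 0] fun t : ℝ => t ^ (k + 1)) : ∀ᶠ t in 𝓝 (0 : ℝ), g t = 0 := by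
  by_contra hne
  obtain ⟨n, u, hu, hu0, he⟩ := hg.exists_eventuallyEq_pow_smul_nonzero_iff.2 hne
  obtain ⟨C, hC⟩ := (h n).bound
  apply hu0
  have key : ∀ᶠ t in 𝓝[≠] (0 : ℝ), ‖u t‖ ≤ C * ‖t‖ := by
    have h1 : ∀ᶠ t in 𝓝[≠] (0 : ℝ), g t = (t - 0) ^ n • u t := he.filter_mono nhdsWithin_le_nhds
    have h2 := hC.filter_mono (nhdsWithin_le_nhds (s := {(0 : ℝ)}ᶜ))
    filter_upwards [h1, h2, self_mem_nhdsWithin] with t e1 e2 e3
    have ht : t ≠ 0 := e3
    rw [e1, sub_zero, norm_smul, pow_succ, norm_mul] at e2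
    have hp : 0 < ‖t ^ n‖ := norm_pos_iff.2 (pow_ne_zero _ ht)
    have : ‖t ^ n‖ * ‖u t‖ ≤ ‖t ^ n‖ * (C * ‖t‖) := by linarith
    exact le_of_mul_le_mul_left this hp
  have t1 : Tendsto (fun t => ‖u t‖) (𝓝[≠] (0 : ℝ)) (𝓝 ‖u 0‖) :=
    (hu.continuousAt.norm.tendsto).mono_left nhdsWithin_le_nhds
  have t2 : Tendsto (fun t : ℝ => C * ‖t‖) (𝓝[≠] (0 : ℝ)) (𝓝 (C * ‖(0 : ℝ)‖)) :=
    ((continuous_const.mul continuous_norm).tendsto 0).mono_left nhdsWithin_le_nhds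
  have := le_of_tendsto_of_tendsto t1 t2 key
  simpa using this

/-- An analytic function that vanishes to infinite order at `0` along all lines vanishes near `0`. -/
theorem flat [CompleteSpace W] (f : V → W) (hf : AnalyticAt ℝ f 0)
    (h : ∀ v : V, ∀ k : ℕ, (fun t : ℝ => f (t • v)) =O[𝓝 0] fun t : ℝ => t ^ (k + 1)) :
    ∀ᶠ v in 𝓝 (0 : V), f v = 0 := by
  obtain ⟨ε, hε, hb⟩ := Metric.eventually_nhds_iff_ball.1 hf.eventually_analyticAt
  refine Metric.eventually_nhds_iff_ball.2 ⟨ε, hε, ?_⟩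
  intro v hv
  have hlin : ∀ t : ℝ, AnalyticAt ℝ (fun t : ℝ => t • v) t := by
    intro t
    exact analyticAt_id.smul analyticAt_const
  have hU : Convex ℝ ((fun t : ℝ => t • v) ⁻¹' Metric.ball (0 : V) ε) := by
    have := (convex_ball (0 : V) ε).linear_preimage (LinearMap.toSpanSingleton ℝ V v)
    exact this
  have hAn : AnalyticOnNhd ℝ (fun t : ℝ => f (t • v)) ((fun t : ℝ => t • v) ⁻¹' Metric.ball (0 : V) ε) := by
    intro t ht
    have h2 : AnalyticAt ℝ f ((fun t : ℝ => t • v) t) := hb _ ht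
    exact AnalyticAt.fun_comp (f := fun t : ℝ => t • v) h2 (hlin t)
  have h0 : (0 : ℝ) ∈ ((fun t : ℝ => t • v) ⁻¹' Metric.ball (0 : V) ε) := by
    simp [hε]
  have h1 : (1 : ℝ) ∈ ((fun t : ℝ => t • v) ⁻¹' Metric.ball (0 : V) ε) := by
    simpa using hv
  have hz : (fun t : ℝ => f (t • v)) =ᶠ[𝓝 0] 0 := flat_one _ (hAn 0 h0) (h v)
  have := hAn.eqOn_zero_of_preconnected_of_eventuallyEq_zero hU.isPreconnected h0 hz h1
  simpa using this

end Pool.Agent.helper45.AL
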