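import Pool.Agent.helper45.AL.Loc

set_option autoImplicit false

universe u v

namespace Pool.Agent.helper45.AL

open Filter Topology Asymptotics
open Pool.Agent.Results.MP_e88537_al.NilpotentLoops
open scoped ContDiff

variable {Q : Type u} [Mul Q] [TopologicalSpace Q] {E : Type v} [NormedAddCommGroup E] [NormedSpace ℝ E]
  {i : Q → Q} {o : Q} {φ : Q → E} {ψ : E → Q}

/-- Curves through the identity, of order `t`. -/
def Cv (o : Q) (φ : Q → E) (γ : ℝ → Q) : Prop :=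
  Tendsto γ (𝓝 0) (𝓝 o) ∧ (fun t => φ (γ t)) =O[𝓝 0] fun t : ℝ => t

theorem Loc.cv_mul (L : Loc Q E i o φ ψ) {γ δ : ℝ → Q} (hγ : Cv o φ γ) (hδ : Cv o φ δ) :
    Cv o φ (fun t => γ t * δ t) := by
  refine ⟨L.tm.comp (hγ.1.prodMk_nhds hδ.1), ?_⟩
  obtain ⟨K, hK⟩ := L.lip
  have t4 : Tendsto (fun t => ((γ t, δ t), (o, o))) (𝓝 (0 : ℝ)) (𝓝 ((o, o), (o, o))) :=
    (hγ.1.prodMk_nhds hδ.1).prodMk_nhds tendsto_const_nhds
  have e := t4.eventually hK
  have h1 : (fun t => φ (γ t * δ t)) =O[𝓝 0] fun t : ℝ => ‖φ (γ t)‖ + ‖φ (δ t)‖ := by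
    apply IsBigO.of_bound K
    filter_upwards [e] with t et
    simp only [L.ho1, L.φ0, sub_zero] at et
    rw [Real.norm_of_nonneg (by positivity)]
    exact et
  exact h1.trans (hγ.2.norm_left.add hδ.2.norm_left)

theorem Loc.cv_inv (L : Loc Q E i o φ ψ) {γ : ℝ → Q} (hγ : Cv o φ γ) : Cv o φ (fun t => i (γ t)) := by
  refine ⟨L.ti.comp hγ.1, ?_⟩
  have e := hγ.1.eventually L.inv
  have h1 : (fun t => φ (i (γ t))) =O[𝓝 0] fun t : ℝ => φ (γ t) := by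
    apply IsBigO.of_bound 2
    exact e
  exact h1.trans hγ.2

theorem Loc.cv_one (L : Loc Q E i o φ ψ) : Cv o φ (fun _ : ℝ => o) := by
  refine ⟨tendsto_const_nhds, ?_⟩
  simp only [L.φ0]
  exact isBigO_zero _ _

theorem Loc.cv_ray (L : Loc Q E i o φ ψ) (a : E) : Cv o φ (fun t : ℝ => ψ (t • a)) := by
  have ht : Tendsto (fun t : ℝ => t • a) (𝓝 0) (𝓝 0) := by
    have : Continuous fun t : ℝ => t • a := by fun_prop
    exact this.tendsto' _ _ (zero_smul _ _)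
  refine ⟨L.tψ.comp ht, ?_⟩
  have h1 : (fun t : ℝ => φ (ψ (t • a))) =ᶠ[𝓝 0] fun t : ℝ => t • a := ht.eventually L.φψ
  refine h1.trans_isBigO ?_
  apply IsBigO.of_bound ‖a‖
  filter_upwards with t
  rw [norm_smul, mul_comm]

/-- The loop of curves. -/
def GG (o : Q) (φ : Q → E) : Type u := {γ : ℝ → Q // Cv o φ γ}

/-- Its multiplication. -/
def Loc.mulG (L : Loc Q E i o φ ψ) : Mul (GG o φ) :=
  ⟨fun γ δ => ⟨fun t => γ.1 t * δ.1 t, L.cv_mul γ.2 δ.2⟩⟩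

/-- Its inverse map. -/
def Loc.invG (L : Loc Q E i o φ ψ) (γ : GG o φ) : GG o φ := ⟨fun t => i (γ.1 t), L.cv_inv γ.2⟩

theorem Loc.sysG (L : Loc Q E i o φ ψ) : @Sys (GG o φ) L.mulG L.invG := by
  letI := L.mulG
  refine ⟨?_, ?_, ?_, ?_, ?_, ?_, ?_, ?_, ?_⟩
  · intro x y
    exact Subtype.ext (funext fun t => L.sys.l _ _)
  · intro x y
    exact Subtype.ext (funext fun t => L.sys.l' _ _)
  · intro x y
    exact Subtype.ext (funext fun t => L.sys.r _ _)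
  · intro x y
    exact Subtype.ext (funext fun t => L.sys.r' _ _)
  · intro x
    exact Subtype.ext (funext fun t => L.sys.ii _)
  · intro x y
    exact Subtype.ext (funext fun t => L.sys.im _ _)
  · intro x y
    exact Subtype.ext (funext fun t => L.sys.fl _ _)
  · intro x y z
    exact Subtype.ext (funext fun t => L.sys.s _ _ _)
  · intro x y z
    exact Subtype.ext (funext fun t => L.sys.s' _ _ _)

/-- Two curves agree up to order `k + 1`. -/
def RR (o : Q) (φ : Q → E) (k : ℕ) (γ δ : GG o φ) : Prop :=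
  (fun t => φ (γ.1 t) - φ (δ.1 t)) =O[𝓝 0] fun t : ℝ => t ^ (k + 1)

/-- The congruence. -/
def TT (o : Q) (φ : Q → E) (k : ℕ) : Setoid (GG o φ) where
  r := RR o φ k
  iseqv := by
    refine ⟨?_, ?_, ?_⟩
    · intro x
      show (fun t => φ (x.1 t) - φ (x.1 t)) =O[𝓝 0] fun t : ℝ => t ^ (k + 1)
      simp only [sub_self]
      exact isBigO_zero _ _
    · intro x y hxy
      have : (fun t => φ (y.1 t) - φ (x.1 t)) = fun t => -(φ (x.1 t) - φ (y.1 t)) := by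
        funext t; abel
      show (fun t => φ (y.1 t) - φ (x.1 t)) =O[𝓝 0] fun t : ℝ => t ^ (k + 1)
      rw [this]
      exact IsBigO.neg_left hxy
    · intro x y z hxy hyz
      have : (fun t => φ (x.1 t) - φ (z.1 t)) =
          fun t => (φ (x.1 t) - φ (y.1 t)) + (φ (y.1 t) - φ (z.1 t)) := by
        funext t; abel
      show (fun t => φ (x.1 t) - φ (z.1 t)) =O[𝓝 0] fun t : ℝ => t ^ (k + 1)
      rw [this]
      exact IsBigO.add hxy hyz

theorem Loc.moufG (L : Loc Q E i o φ ψ) (k : ℕ) (x y z : ℝ → Q) (hx : Cv o φ x) (hy : Cv o φ y)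
    (hz : Cv o φ z) : (fun t => φ ((x t * (y t * z t)) * x t) - φ ((x t * y t) * (z t * x t))) =O[𝓝 0]
      fun t : ℝ => t ^ (k + 1) := by
  letI := L.mulG
  let oG : GG o φ := ⟨fun _ => o, L.cv_one⟩
  have key := filtered (G := GG o φ) L.sysG oG
    (fun x => Subtype.ext (funext fun t => L.ho1 _))
    (fun x => Subtype.ext (funext fun t => L.hoi _)) (TT o φ) ?_ ?_ ?_ k ⟨x, hx⟩ ⟨y, hy⟩ ⟨z, hz⟩
  · exact key
  · intro k a b c d hab hcd
    obtain ⟨K, hK⟩ := L.lip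
    have t4 : Tendsto (fun t => ((a.1 t, c.1 t), (b.1 t, d.1 t))) (𝓝 (0 : ℝ)) (𝓝 ((o, o), (o, o))) :=
      (a.2.1.prodMk_nhds c.2.1).prodMk_nhds (b.2.1.prodMk_nhds d.2.1)
    have e := t4.eventually hK
    have h1 : (fun t => φ (a.1 t * c.1 t) - φ (b.1 t * d.1 t)) =O[𝓝 0]
        fun t : ℝ => ‖φ (a.1 t) - φ (b.1 t)‖ + ‖φ (c.1 t) - φ (d.1 t)‖ := by
      apply IsBigO.of_bound K
      filter_upwards [e] with t et
      rw [Real.norm_of_nonneg (by positivity)]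
      exact et
    exact h1.trans ((IsBigO.norm_left hab).add (IsBigO.norm_left hcd))
  · intro a b
    show (fun t => φ (a.1 t) - φ (b.1 t)) =O[𝓝 0] fun t : ℝ => t ^ (0 + 1)
    simp only [zero_add, pow_one]
    exact a.2.2.sub b.2.2
  · intro k n hn x y
    have hn' : (fun t => φ (n.1 t)) =O[𝓝 0] fun t : ℝ => t ^ (k + 1) := by
      have : (fun t => φ (n.1 t) - φ o) =O[𝓝 0] fun t : ℝ => t ^ (k + 1) := hn
      simpa only [L.φ0, sub_zero] using this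
    obtain ⟨C, hC⟩ := L.estQ
    -- product of two orders
    have prodO : ∀ w : GG o φ, (fun t => ‖φ (n.1 t)‖ * ‖φ (w.1 t)‖) =O[𝓝 0]
        fun t : ℝ => t ^ (k + 1 + 1) := by
      intro w
      have e := hn'.norm_left.mul w.2.2.norm_left
      have e2 : (fun t : ℝ => t ^ (k + 1) * t) = fun t : ℝ => t ^ (k + 1 + 1) := by
        funext t; rw [pow_succ t (k + 1)]
      rw [e2] at e
      exact e
    refine ⟨?_, ?_, ?_⟩
    · have t3 : Tendsto (fun t => (n.1 t, x.1 t, y.1 t)) (𝓝 (0 : ℝ)) (𝓝 (o, o, o)) :=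
        n.2.1.prodMk_nhds (x.2.1.prodMk_nhds y.2.1)
      have e := t3.eventually hC
      have h1 : (fun t => φ ((n.1 t * x.1 t) * y.1 t) - φ (n.1 t * (x.1 t * y.1 t))) =O[𝓝 0]
          fun t => ‖φ (n.1 t)‖ * ‖φ (x.1 t)‖ := by
        apply IsBigO.of_bound C
        filter_upwards [e] with t et
        rw [Real.norm_of_nonneg (by positivity), ← mul_assoc]
        exact et.1
      exact h1.trans (prodO x)
    · have t3 : Tendsto (fun t => (x.1 t, n.1 t, y.1 t)) (𝓝 (0 : ℝ)) (𝓝 (o, o, o)) :=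
        x.2.1.prodMk_nhds (n.2.1.prodMk_nhds y.2.1)
      have e := t3.eventually hC
      have h1 : (fun t => φ ((x.1 t * n.1 t) * y.1 t) - φ (x.1 t * (n.1 t * y.1 t))) =O[𝓝 0]
          fun t => ‖φ (n.1 t)‖ * ‖φ (x.1 t)‖ := by
        apply IsBigO.of_bound C
        filter_upwards [e] with t et
        rw [Real.norm_of_nonneg (by positivity), mul_comm ‖φ (n.1 t)‖, ← mul_assoc]
        exact et.1
      exact h1.trans (prodO x)
    · have t3 : Tendsto (fun t => (x.1 t, y.1 t, n.1 t)) (𝓝 (0 : ℝ)) (𝓝 (o, o, o)) :=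
        x.2.1.prodMk_nhds (y.2.1.prodMk_nhds n.2.1)
      have e := t3.eventually hC
      have h1 : (fun t => φ ((x.1 t * y.1 t) * n.1 t) - φ (x.1 t * (y.1 t * n.1 t))) =O[𝓝 0]
          fun t => ‖φ (n.1 t)‖ * ‖φ (x.1 t)‖ := by
        apply IsBigO.of_bound C
        filter_upwards [e] with t et
        rw [Real.norm_of_nonneg (by positivity), mul_comm ‖φ (n.1 t)‖, ← mul_assoc]
        exact et.2
      exact h1.trans (prodO x)

/-- The Moufang defect in coordinates. -/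
def DD (φ : Q → E) (ψ : E → Q) (p : E × E × E) : E :=
  FF φ ψ (FF φ ψ (p.1, FF φ ψ (p.2.1, p.2.2)), p.1) -
    FF φ ψ (FF φ ψ (p.1, p.2.1), FF φ ψ (p.2.2, p.1))

theorem Loc.cdD (L : Loc Q E i o φ ψ) : ContDiffAt ℝ ω (DD φ ψ) 0 := by
  have a : ContDiffAt ℝ ω (fun p : E × E × E => p.1) 0 := contDiffAt_fst
  have b : ContDiffAt ℝ ω (fun p : E × E × E => p.2.1) 0 := (contDiff_fst.comp contDiff_snd).contDiffAt
  have c : ContDiffAt ℝ ω (fun p : E × E × E => p.2.2) 0 := (contDiff_snd.comp contDiff_snd).contDiffAt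
  have bc := L.cd b c rfl rfl
  have abc := L.cd a bc rfl L.F0'
  have z1 : (fun p : E × E × E => FF φ ψ (p.1, FF φ ψ (p.2.1, p.2.2))) 0 = 0 := by
    show FF φ ψ (0, FF φ ψ (0, 0)) = 0
    rw [L.F0', L.F0']
  exact (L.cd abc a z1 rfl).sub (L.cd (L.cd a b rfl rfl) (L.cd c a rfl rfl) L.F0' L.F0')

/-- The Moufang defect of three elements near the identity. -/
theorem Loc.eqD (L : Loc Q E i o φ ψ) : ∀ᶠ p in 𝓝 ((o, o, o) : Q × Q × Q),
    φ ((p.1 * (p.2.1 * p.2.2)) * p.1) - φ ((p.1 * p.2.1) * (p.2.2 * p.1)) =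
      DD φ ψ (φ p.1, φ p.2.1, φ p.2.2) := by
  have ta : Tendsto (fun p : Q × Q × Q => p.1) (𝓝 (o, o, o)) (𝓝 o) := continuous_fst.tendsto' _ _ rfl
  have tb : Tendsto (fun p : Q × Q × Q => p.2.1) (𝓝 (o, o, o)) (𝓝 o) :=
    (continuous_fst.comp continuous_snd).tendsto' _ _ rfl
  have tc : Tendsto (fun p : Q × Q × Q => p.2.2) (𝓝 (o, o, o)) (𝓝 o) :=
    (continuous_snd.comp continuous_snd).tendsto' _ _ rfl
  have tab : Tendsto (fun p : Q × Q × Q => p.1 * p.2.1) (𝓝 (o, o, o)) (𝓝 o) :=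
    L.tm.comp (ta.prodMk_nhds tb)
  have tbc : Tendsto (fun p : Q × Q × Q => p.2.1 * p.2.2) (𝓝 (o, o, o)) (𝓝 o) :=
    L.tm.comp (tb.prodMk_nhds tc)
  have tca : Tendsto (fun p : Q × Q × Q => p.2.2 * p.1) (𝓝 (o, o, o)) (𝓝 o) :=
    L.tm.comp (tc.prodMk_nhds ta)
  have tabc : Tendsto (fun p : Q × Q × Q => p.1 * (p.2.1 * p.2.2)) (𝓝 (o, o, o)) (𝓝 o) :=
    L.tm.comp (ta.prodMk_nhds tbc)
  filter_upwards [(tb.prodMk_nhds tc).eventually L.prod, (ta.prodMk_nhds tb).eventually L.prod,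
    (tc.prodMk_nhds ta).eventually L.prod, (ta.prodMk_nhds tbc).eventually L.prod,
    (tabc.prodMk_nhds ta).eventually L.prod, (tab.prodMk_nhds tca).eventually L.prod]
    with p e1 e2 e3 e4 e5 e6
  simp only [DD]
  rw [← e1, ← e2, ← e3, ← e4, ← e5, ← e6]

/-- **Local theorem**: the Moufang identity holds near the identity. -/
theorem Loc.local_moufang [CompleteSpace E] (L : Loc Q E i o φ ψ) :
    ∀ᶠ p in 𝓝 ((o, o, o) : Q × Q × Q), (p.1 * (p.2.1 * p.2.2)) * p.1 = (p.1 * p.2.1) * (p.2.2 * p.1) := by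
  have hD : ∀ᶠ v in 𝓝 (0 : E × E × E), DD φ ψ v = 0 := by
    apply flat (DD φ ψ) L.cdD.analyticAt
    rintro ⟨a, b, c⟩ k
    have e := L.moufG k _ _ _ (L.cv_ray a) (L.cv_ray b) (L.cv_ray c)
    have t3 : Tendsto (fun t : ℝ => ((ψ (t • a), ψ (t • b), ψ (t • c)) : Q × Q × Q)) (𝓝 0)
        (𝓝 (o, o, o)) :=
      (L.cv_ray a).1.prodMk_nhds ((L.cv_ray b).1.prodMk_nhds (L.cv_ray c).1)
    have hray : ∀ a : E, ∀ᶠ t in 𝓝 (0 : ℝ), φ (ψ (t • a)) = t • a := by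
      intro a
      have ht : Tendsto (fun t : ℝ => t • a) (𝓝 0) (𝓝 0) := by
        have : Continuous fun t : ℝ => t • a := by fun_prop
        exact this.tendsto' _ _ (zero_smul _ _)
      exact ht.eventually L.φψ
    refine IsBigO.congr' e ?_ EventuallyEq.rfl
    filter_upwards [t3.eventually L.eqD, hray a, hray b, hray c] with t e1 e2 e3 e4
    rw [e1]
    simp only [e2, e3, e4]
    rfl
  have t3 : Tendsto (fun p : Q × Q × Q => (φ p.1, φ p.2.1, φ p.2.2)) (𝓝 (o, o, o)) (𝓝 0) :=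
    (L.tφ.comp (continuous_fst.tendsto' _ _ rfl)).prodMk_nhds
      ((L.tφ.comp ((continuous_fst.comp continuous_snd).tendsto' _ _ rfl)).prodMk_nhds
      (L.tφ.comp ((continuous_snd.comp continuous_snd).tendsto' _ _ rfl)))
  have ta : Tendsto (fun p : Q × Q × Q => p.1) (𝓝 (o, o, o)) (𝓝 o) := continuous_fst.tendsto' _ _ rfl
  have tb : Tendsto (fun p : Q × Q × Q => p.2.1) (𝓝 (o, o, o)) (𝓝 o) :=
    (continuous_fst.comp continuous_snd).tendsto' _ _ rfl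
  have tc : Tendsto (fun p : Q × Q × Q => p.2.2) (𝓝 (o, o, o)) (𝓝 o) :=
    (continuous_snd.comp continuous_snd).tendsto' _ _ rfl
  have tab : Tendsto (fun p : Q × Q × Q => p.1 * p.2.1) (𝓝 (o, o, o)) (𝓝 o) :=
    L.tm.comp (ta.prodMk_nhds tb)
  have tbc : Tendsto (fun p : Q × Q × Q => p.2.1 * p.2.2) (𝓝 (o, o, o)) (𝓝 o) :=
    L.tm.comp (tb.prodMk_nhds tc)
  have tca : Tendsto (fun p : Q × Q × Q => p.2.2 * p.1) (𝓝 (o, o, o)) (𝓝 o) :=
    L.tm.comp (tc.prodMk_nhds ta)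
  have tabc : Tendsto (fun p : Q × Q × Q => p.1 * (p.2.1 * p.2.2)) (𝓝 (o, o, o)) (𝓝 o) :=
    L.tm.comp (ta.prodMk_nhds tbc)
  have tL : Tendsto (fun p : Q × Q × Q => (p.1 * (p.2.1 * p.2.2)) * p.1) (𝓝 (o, o, o)) (𝓝 o) :=
    L.tm.comp (tabc.prodMk_nhds ta)
  have tR : Tendsto (fun p : Q × Q × Q => (p.1 * p.2.1) * (p.2.2 * p.1)) (𝓝 (o, o, o)) (𝓝 o) :=
    L.tm.comp (tab.prodMk_nhds tca)
  filter_upwards [L.eqD, t3.eventually hD, tL.eventually L.ψφ, tR.eventually L.ψφ] with p e1 e2 e3 e4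
  rw [e2] at e1
  rw [← e3, ← e4, sub_eq_zero.1 e1]

end Pool.Agent.helper45.AL
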