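import Pool.Agent.helper45.AL.Bil
import Pool.Agent.helper45.AL.Flat
import Pool.Agent.helper45.AL.Fil

set_option autoImplicit false

universe u v

namespace Pool.Agent.helper45.AL

open Filter Topology Asymptotics
open Pool.Agent.Results.MP_e88537_al.NilpotentLoops
open scoped ContDiff

/-- Local coordinates of an SUF IP loop near its identity `o`. -/
structure Loc (Q : Type u) [Mul Q] [TopologicalSpace Q] (E : Type v) [NormedAddCommGroup E] [NormedSpace ℝ E]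
    (i : Q → Q) (o : Q) (φ : Q → E) (ψ : E → Q) : Prop where
  sys : Sys Q i
  ho1 : ∀ x : Q, x * o = x
  ho2 : ∀ x : Q, o * x = x
  hoi : ∀ x : Q, x * i x = o
  φ0 : φ o = 0
  tφ : Tendsto φ (𝓝 o) (𝓝 0)
  tψ : Tendsto ψ (𝓝 0) (𝓝 o)
  ψφ : ∀ᶠ x in 𝓝 o, ψ (φ x) = x
  φψ : ∀ᶠ a in 𝓝 0, φ (ψ a) = a
  tm : Tendsto (fun p : Q × Q => p.1 * p.2) (𝓝 (o, o)) (𝓝 o)
  ti : Tendsto i (𝓝 o) (𝓝 o)
  hF : ContDiffAt ℝ ω (fun p : E × E => φ (ψ p.1 * ψ p.2)) 0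

variable {Q : Type u} [Mul Q] [TopologicalSpace Q] {E : Type v} [NormedAddCommGroup E] [NormedSpace ℝ E]
  {i : Q → Q} {o : Q} {φ : Q → E} {ψ : E → Q}

/-- The multiplication in coordinates. -/
def FF (φ : Q → E) (ψ : E → Q) (p : E × E) : E := φ (ψ p.1 * ψ p.2)

theorem Loc.ψ0 (L : Loc Q E i o φ ψ) : ψ 0 = o := by
  have := L.ψφ.self_of_nhds
  rwa [L.φ0] at this

theorem Loc.F0 (L : Loc Q E i o φ ψ) : FF φ ψ 0 = 0 := by
  show φ (ψ 0 * ψ 0) = 0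
  rw [L.ψ0, L.ho1, L.φ0]

theorem Loc.F0' (L : Loc Q E i o φ ψ) : FF φ ψ (0, 0) = 0 := L.F0

theorem Loc.Fl (L : Loc Q E i o φ ψ) : ∀ᶠ b in 𝓝 (0 : E), FF φ ψ (0, b) = b := by
  filter_upwards [L.φψ] with b hb
  show φ (ψ 0 * ψ b) = b
  rw [L.ψ0, L.ho2, hb]

theorem Loc.Fr (L : Loc Q E i o φ ψ) : ∀ᶠ b in 𝓝 (0 : E), FF φ ψ (b, 0) = b := by
  filter_upwards [L.φψ] with b hb
  show φ (ψ b * ψ 0) = b
  rw [L.ψ0, L.ho1, hb]

/-- Coordinates of a product. -/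
theorem Loc.prod (L : Loc Q E i o φ ψ) :
    ∀ᶠ p in 𝓝 ((o, o) : Q × Q), φ (p.1 * p.2) = FF φ ψ (φ p.1, φ p.2) := by
  have h1 : ∀ᶠ p in 𝓝 ((o, o) : Q × Q), ψ (φ p.1) = p.1 := (continuous_fst.tendsto (o, o)).eventually L.ψφ
  have h2 : ∀ᶠ p in 𝓝 ((o, o) : Q × Q), ψ (φ p.2) = p.2 := (continuous_snd.tendsto (o, o)).eventually L.ψφ
  filter_upwards [h1, h2] with p e1 e2
  show _ = φ (ψ (φ p.1) * ψ (φ p.2))
  rw [e1, e2]

/-- The associator in coordinates. -/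
def HH (φ : Q → E) (ψ : E → Q) (p : E × E × E) : E :=
  FF φ ψ (FF φ ψ (p.1, p.2.1), p.2.2) - FF φ ψ (p.1, FF φ ψ (p.2.1, p.2.2))

theorem Loc.tF (L : Loc Q E i o φ ψ) : Tendsto (FF φ ψ) (𝓝 (0 : E × E)) (𝓝 0) := by
  have this : Tendsto (FF φ ψ) (𝓝 (0 : E × E)) (𝓝 (FF φ ψ 0)) := L.hF.continuousAt.tendsto
  rwa [L.F0] at this

section comp

theorem Loc.cd (L : Loc Q E i o φ ψ) {V : Type*} [NormedAddCommGroup V] [NormedSpace ℝ V] {f g : V → E}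
    (hf : ContDiffAt ℝ ω f 0) (hg : ContDiffAt ℝ ω g 0) (hf0 : f 0 = 0) (hg0 : g 0 = 0) :
    ContDiffAt ℝ ω (fun v => FF φ ψ (f v, g v)) 0 := by
  have h1 : ContDiffAt ℝ ω (fun v => (f v, g v)) 0 := hf.prodMk hg
  have h2 : ContDiffAt ℝ ω (FF φ ψ) ((fun v => (f v, g v)) 0) := by
    show ContDiffAt ℝ ω (FF φ ψ) (f 0, g 0)
    rw [hf0, hg0]
    exact L.hF
  exact ContDiffAt.comp (g := FF φ ψ) (f := fun v => (f v, g v)) 0 h2 h1

end comp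

theorem Loc.cdH (L : Loc Q E i o φ ψ) : ContDiffAt ℝ ω (HH φ ψ) 0 := by
  have a : ContDiffAt ℝ ω (fun p : E × E × E => p.1) 0 := contDiffAt_fst
  have b : ContDiffAt ℝ ω (fun p : E × E × E => p.2.1) 0 := (contDiff_fst.comp contDiff_snd).contDiffAt
  have c : ContDiffAt ℝ ω (fun p : E × E × E => p.2.2) 0 := (contDiff_snd.comp contDiff_snd).contDiffAt
  exact (L.cd (L.cd a b rfl rfl) c L.F0' rfl).sub (L.cd a (L.cd b c rfl rfl) rfl L.F0')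

theorem Loc.tE (L : Loc Q E i o φ ψ) {V : Type*} [TopologicalSpace V] {f g : V → E} {l : Filter V}
    (hf : Tendsto f l (𝓝 0)) (hg : Tendsto g l (𝓝 0)) :
    Tendsto (fun v => FF φ ψ (f v, g v)) l (𝓝 0) := by
  have : Tendsto (fun v => (f v, g v)) l (𝓝 ((0 : E), (0 : E))) := hf.prodMk_nhds hg
  exact L.tF.comp this

theorem Loc.H1 (L : Loc Q E i o φ ψ) : ∀ᶠ p in 𝓝 (0 : E × E × E), p.1 = 0 → HH φ ψ p = 0 := by
  have tb : Tendsto (fun p : E × E × E => p.2.1) (𝓝 0) (𝓝 0) :=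
    (continuous_fst.comp continuous_snd).tendsto' _ _ rfl
  have tc : Tendsto (fun p : E × E × E => p.2.2) (𝓝 0) (𝓝 0) :=
    (continuous_snd.comp continuous_snd).tendsto' _ _ rfl
  have tbc := L.tE tb tc
  filter_upwards [tb.eventually L.Fl, tbc.eventually L.Fl] with p e1 e2 h0
  simp only [HH, h0]
  rw [e1, e2, sub_self]

theorem Loc.H2 (L : Loc Q E i o φ ψ) : ∀ᶠ p in 𝓝 (0 : E × E × E), p.2.1 = 0 → HH φ ψ p = 0 := by
  have ta : Tendsto (fun p : E × E × E => p.1) (𝓝 0) (𝓝 0) := continuous_fst.tendsto' _ _ rfl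
  have tc : Tendsto (fun p : E × E × E => p.2.2) (𝓝 0) (𝓝 0) :=
    (continuous_snd.comp continuous_snd).tendsto' _ _ rfl
  filter_upwards [ta.eventually L.Fr, tc.eventually L.Fl] with p e1 e2 h0
  simp only [HH, h0]
  rw [e1, e2, sub_self]

theorem Loc.H3 (L : Loc Q E i o φ ψ) : ∀ᶠ p in 𝓝 (0 : E × E × E), p.2.2 = 0 → HH φ ψ p = 0 := by
  have ta : Tendsto (fun p : E × E × E => p.1) (𝓝 0) (𝓝 0) := continuous_fst.tendsto' _ _ rfl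
  have tb : Tendsto (fun p : E × E × E => p.2.1) (𝓝 0) (𝓝 0) :=
    (continuous_fst.comp continuous_snd).tendsto' _ _ rfl
  have tab := L.tE ta tb
  filter_upwards [tb.eventually L.Fr, tab.eventually L.Fr] with p e1 e2 h0
  simp only [HH, h0]
  rw [e2, e1, sub_self]

/-- Estimates for the associator in coordinates. -/
theorem Loc.est (L : Loc Q E i o φ ψ) : ∃ C : ℝ, ∀ᶠ p in 𝓝 (0 : E × E × E),
    ‖HH φ ψ p‖ ≤ C * ‖p.1‖ * ‖p.2.1‖ ∧ ‖HH φ ψ p‖ ≤ C * ‖p.1‖ * ‖p.2.2‖ := by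
  have c2 : ContDiffAt ℝ 2 (HH φ ψ) 0 := L.cdH.of_le (by exact_mod_cast le_top)
  obtain ⟨C1, h1⟩ := bil (HH φ ψ) c2 L.H1 L.H2
  let σ : E × E × E → E × E × E := fun p => (p.1, p.2.2, p.2.1)
  have σc : ContDiff ℝ 2 σ := contDiff_fst.prodMk ((contDiff_snd.comp contDiff_snd).prodMk
    (contDiff_fst.comp contDiff_snd))
  have σt : Tendsto σ (𝓝 0) (𝓝 0) := σc.continuous.tendsto' _ _ rfl
  have c3 : ContDiffAt ℝ 2 (fun p => HH φ ψ (σ p)) 0 := by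
    have : ContDiffAt ℝ 2 (HH φ ψ) (σ 0) := c2
    exact this.comp 0 σc.contDiffAt
  obtain ⟨C2, h2⟩ := bil (fun p => HH φ ψ (σ p)) c3 (σt.eventually L.H1) (σt.eventually L.H3)
  have h2' := σt.eventually h2
  refine ⟨max C1 C2, ?_⟩
  filter_upwards [h1, h2'] with p e1 e2
  have e2' : ‖HH φ ψ p‖ ≤ C2 * ‖p.1‖ * ‖p.2.2‖ := e2
  constructor
  · refine e1.trans ?_
    gcongr
    exact le_max_left _ _
  · refine e2'.trans ?_
    gcongr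
    exact le_max_right _ _

/-- The same estimates in the loop. -/
theorem Loc.estQ (L : Loc Q E i o φ ψ) : ∃ C : ℝ, ∀ᶠ p in 𝓝 ((o, o, o) : Q × Q × Q),
    ‖φ ((p.1 * p.2.1) * p.2.2) - φ (p.1 * (p.2.1 * p.2.2))‖ ≤ C * ‖φ p.1‖ * ‖φ p.2.1‖ ∧
    ‖φ ((p.1 * p.2.1) * p.2.2) - φ (p.1 * (p.2.1 * p.2.2))‖ ≤ C * ‖φ p.1‖ * ‖φ p.2.2‖ := by
  obtain ⟨C, hC⟩ := L.est
  have ta : Tendsto (fun p : Q × Q × Q => p.1) (𝓝 (o, o, o)) (𝓝 o) := continuous_fst.tendsto' _ _ rfl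
  have tb : Tendsto (fun p : Q × Q × Q => p.2.1) (𝓝 (o, o, o)) (𝓝 o) :=
    (continuous_fst.comp continuous_snd).tendsto' _ _ rfl
  have tc : Tendsto (fun p : Q × Q × Q => p.2.2) (𝓝 (o, o, o)) (𝓝 o) :=
    (continuous_snd.comp continuous_snd).tendsto' _ _ rfl
  have tab : Tendsto (fun p : Q × Q × Q => p.1 * p.2.1) (𝓝 (o, o, o)) (𝓝 o) :=
    L.tm.comp (ta.prodMk_nhds tb)
  have tbc : Tendsto (fun p : Q × Q × Q => p.2.1 * p.2.2) (𝓝 (o, o, o)) (𝓝 o) :=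
    L.tm.comp (tb.prodMk_nhds tc)
  have t3 : Tendsto (fun p : Q × Q × Q => (φ p.1, φ p.2.1, φ p.2.2)) (𝓝 (o, o, o)) (𝓝 0) :=
    (L.tφ.comp ta).prodMk_nhds ((L.tφ.comp tb).prodMk_nhds (L.tφ.comp tc))
  refine ⟨C, ?_⟩
  filter_upwards [t3.eventually hC, (ta.prodMk_nhds tb).eventually L.prod,
    (tb.prodMk_nhds tc).eventually L.prod, (tab.prodMk_nhds tc).eventually L.prod,
    (ta.prodMk_nhds tbc).eventually L.prod] with p e e1 e2 e3 e4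
  have : HH φ ψ (φ p.1, φ p.2.1, φ p.2.2) =
      φ ((p.1 * p.2.1) * p.2.2) - φ (p.1 * (p.2.1 * p.2.2)) := by
    simp only [HH]
    rw [← e1, ← e2, ← e3, ← e4]
  rw [← this]
  exact e

/-- Lipschitz estimate for the multiplication. -/
theorem Loc.lip (L : Loc Q E i o φ ψ) : ∃ K : ℝ, ∀ᶠ p in 𝓝 (((o, o), (o, o)) : (Q × Q) × (Q × Q)),
    ‖φ (p.1.1 * p.1.2) - φ (p.2.1 * p.2.2)‖ ≤ K * (‖φ p.1.1 - φ p.2.1‖ + ‖φ p.1.2 - φ p.2.2‖) := by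
  have c1 : ContDiffAt ℝ 1 (FF φ ψ) 0 := L.hF.of_le (by exact_mod_cast le_top)
  obtain ⟨K, t, ht, hK⟩ := c1.exists_lipschitzOnWith
  have t1 : Tendsto (fun p : (Q × Q) × (Q × Q) => p.1) (𝓝 ((o, o), (o, o))) (𝓝 (o, o)) :=
    continuous_fst.tendsto' _ _ rfl
  have t2 : Tendsto (fun p : (Q × Q) × (Q × Q) => p.2) (𝓝 ((o, o), (o, o))) (𝓝 (o, o)) :=
    continuous_snd.tendsto' _ _ rfl
  have tφφ : Tendsto (fun p : Q × Q => (φ p.1, φ p.2)) (𝓝 (o, o)) (𝓝 (0 : E × E)) :=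
    (L.tφ.comp (continuous_fst.tendsto' _ _ rfl)).prodMk_nhds
      (L.tφ.comp (continuous_snd.tendsto' _ _ rfl))
  refine ⟨K, ?_⟩
  filter_upwards [t1.eventually L.prod, t2.eventually L.prod, (tφφ.comp t1).eventually ht,
    (tφφ.comp t2).eventually ht] with p e1 e2 e3 e4
  rw [e1, e2]
  have := hK.dist_le_mul _ e3 _ e4
  rw [dist_eq_norm] at this
  refine this.trans ?_
  have hd : dist ((fun p : Q × Q => (φ p.1, φ p.2)) p.1) ((fun p : Q × Q => (φ p.1, φ p.2)) p.2)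
      ≤ ‖φ p.1.1 - φ p.2.1‖ + ‖φ p.1.2 - φ p.2.2‖ := by
    rw [Prod.dist_eq]
    apply max_le
    · rw [dist_eq_norm]
      exact le_add_of_nonneg_right (norm_nonneg _)
    · rw [dist_eq_norm]
      exact le_add_of_nonneg_left (norm_nonneg _)
  exact mul_le_mul_of_nonneg_left hd K.2

/-- Estimate for the inverse. -/
theorem Loc.inv (L : Loc Q E i o φ ψ) : ∀ᶠ x in 𝓝 o, ‖φ (i x)‖ ≤ 2 * ‖φ x‖ := by
  let H2 : E × E × E → E := fun p => FF φ ψ (p.1, p.2.1) - p.1 - p.2.1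
  have a : ContDiffAt ℝ ω (fun p : E × E × E => p.1) 0 := contDiffAt_fst
  have b : ContDiffAt ℝ ω (fun p : E × E × E => p.2.1) 0 := (contDiff_fst.comp contDiff_snd).contDiffAt
  have ta : Tendsto (fun p : E × E × E => p.1) (𝓝 0) (𝓝 0) := continuous_fst.tendsto' _ _ rfl
  have tb : Tendsto (fun p : E × E × E => p.2.1) (𝓝 0) (𝓝 0) :=
    (continuous_fst.comp continuous_snd).tendsto' _ _ rfl
  have c2 : ContDiffAt ℝ 2 H2 0 := (((L.cd a b rfl rfl).sub a).sub b).of_le (by exact_mod_cast le_top)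
  have z1 : ∀ᶠ p in 𝓝 (0 : E × E × E), p.1 = 0 → H2 p = 0 := by
    filter_upwards [tb.eventually L.Fl] with p e h0
    simp only [H2, h0, e]
    abel
  have z2 : ∀ᶠ p in 𝓝 (0 : E × E × E), p.2.1 = 0 → H2 p = 0 := by
    filter_upwards [ta.eventually L.Fr] with p e h0
    simp only [H2, h0, e]
    abel
  obtain ⟨C, hC⟩ := bil H2 c2 z1 z2
  have tx : Tendsto (fun x : Q => (x, i x)) (𝓝 o) (𝓝 (o, o)) := tendsto_id.prodMk_nhds L.ti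
  have t3 : Tendsto (fun x : Q => ((φ x, φ (i x), (0 : E)) : E × E × E)) (𝓝 o) (𝓝 0) :=
    L.tφ.prodMk_nhds ((L.tφ.comp L.ti).prodMk_nhds tendsto_const_nhds)
  have small : ∀ᶠ x in 𝓝 o, |C| * ‖φ x‖ ≤ 1 / 2 := by
    have : Tendsto (fun x => |C| * ‖φ x‖) (𝓝 o) (𝓝 (|C| * ‖(0 : E)‖)) := L.tφ.norm.const_mul _
    rw [norm_zero, mul_zero] at this
    exact this.eventually (eventually_le_nhds (by norm_num))
  filter_upwards [t3.eventually hC, tx.eventually L.prod, small] with x e1 e2 e3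
  simp only [H2] at e1
  rw [L.hoi, L.φ0] at e2
  rw [← e2] at e1
  have e4 : ‖φ (i x)‖ ≤ ‖φ x‖ + ‖(0 : E) - φ x - φ (i x)‖ := by
    have : φ (i x) = -φ x - ((0 : E) - φ x - φ (i x)) := by abel
    calc ‖φ (i x)‖ = ‖-φ x - ((0 : E) - φ x - φ (i x))‖ := by rw [← this]
      _ ≤ ‖-φ x‖ + ‖(0 : E) - φ x - φ (i x)‖ := norm_sub_le _ _
      _ = _ := by rw [norm_neg]
  have e5 : C * ‖φ x‖ * ‖φ (i x)‖ ≤ 1 / 2 * ‖φ (i x)‖ := by
    apply mul_le_mul_of_nonneg_right _ (norm_nonneg _)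
    calc C * ‖φ x‖ ≤ |C| * ‖φ x‖ := by gcongr; exact le_abs_self C
      _ ≤ 1 / 2 := e3
  linarith

end Pool.Agent.helper45.AL
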