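import Pool.Agent.helper45.AL.Germ

set_option autoImplicit false

universe u v

namespace Pool.Agent.helper45.AL

open Filter Topology Asymptotics Set
open Pool.Agent.Results.MP_e88537_al.NilpotentLoops
open scoped ContDiff Manifold

/-- Identity theorem for analytic maps between manifolds. -/
theorem eq_of_eventuallyEq {EM EN HM HN M N : Type*} [NormedAddCommGroup EM] [NormedSpace ℝ EM]
    [NormedAddCommGroup EN] [NormedSpace ℝ EN] [CompleteSpace EN] [TopologicalSpace HM] [TopologicalSpace HN]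
    {I : ModelWithCorners ℝ EM HM} [I.Boundaryless] {J : ModelWithCorners ℝ EN HN}
    [TopologicalSpace M] [ChartedSpace HM M] [TopologicalSpace N] [ChartedSpace HN N]
    [PreconnectedSpace M] [T2Space N] {f g : M → N} (hf : ContMDiff I J ω f) (hg : ContMDiff I J ω g)
    (p₀ : M) (h : f =ᶠ[𝓝 p₀] g) : f = g := by
  set S : Set M := {p | f =ᶠ[𝓝 p] g} with hS
  have hopen : IsOpen S := isOpen_setOfPred_eventually_nhds
  have hclosed : IsClosed S := by
    apply isClosed_of_closure_subset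
    intro p hp
    have hfg : f p = g p := by
      have hsub : closure S ⊆ {q | f q = g q} :=
        closure_minimal (fun q hq => Eventually.self_of_nhds hq) (isClosed_eq hf.continuous hg.continuous)
      exact hsub hp
    have h1 := contMDiffAt_iff.1 (hf p)
    have h2 := contMDiffAt_iff.1 (hg p)
    rw [← hfg] at h2
    rw [I.range_eq_univ, contDiffWithinAt_univ] at h1 h2
    set a := extChartAt I p p with ha
    have A1 : ∀ᶠ b in 𝓝 a, AnalyticAt ℝ (extChartAt J (f p) ∘ f ∘ (extChartAt I p).symm) b :=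
      h1.2.analyticAt.eventually_analyticAt
    have A2 : ∀ᶠ b in 𝓝 a, AnalyticAt ℝ (extChartAt J (f p) ∘ g ∘ (extChartAt I p).symm) b :=
      h2.2.analyticAt.eventually_analyticAt
    have A3 : ∀ᶠ b in 𝓝 a, b ∈ (extChartAt I p).target := extChartAt_target_mem_nhds p
    obtain ⟨r, hr, hb⟩ := Metric.eventually_nhds_iff_ball.1 (A1.and (A2.and A3))
    -- neighbourhood of `p`
    have B1 : ∀ᶠ q in 𝓝 p, q ∈ (extChartAt I p).source := extChartAt_source_mem_nhds p
    have B2 : ∀ᶠ q in 𝓝 p, extChartAt I p q ∈ Metric.ball a r :=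
      (continuousAt_extChartAt p).eventually (Metric.ball_mem_nhds a hr)
    have B3 : ∀ᶠ q in 𝓝 p, f q ∈ (extChartAt J (f p)).source :=
      hf.continuous.continuousAt.eventually (extChartAt_source_mem_nhds (f p))
    have B4 : ∀ᶠ q in 𝓝 p, g q ∈ (extChartAt J (f p)).source := by
      have : ContinuousAt g p := hg.continuous.continuousAt
      apply this.eventually
      rw [← hfg]
      exact extChartAt_source_mem_nhds (f p)
    obtain ⟨q, hq, hqS⟩ := mem_closure_iff_nhds.1 hp _ (B1.and B2)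
    have hqeq : f =ᶠ[𝓝 q] g := hqS
    have hEv : (extChartAt J (f p) ∘ f ∘ (extChartAt I p).symm) =ᶠ[𝓝 (extChartAt I p q)]
        (extChartAt J (f p) ∘ g ∘ (extChartAt I p).symm) := by
      have hc : ContinuousAt (extChartAt I p).symm (extChartAt I p q) :=
        continuousAt_extChartAt_symm'' ((extChartAt I p).map_source hq.1)
      have hc' : Tendsto (extChartAt I p).symm (𝓝 (extChartAt I p q)) (𝓝 q) := by
        have := hc.tendsto
        rwa [(extChartAt I p).left_inv hq.1] at this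
      filter_upwards [hc'.eventually hqeq] with b eb
      simp only [Function.comp, eb]
    have hEq : EqOn (extChartAt J (f p) ∘ f ∘ (extChartAt I p).symm)
        (extChartAt J (f p) ∘ g ∘ (extChartAt I p).symm) (Metric.ball a r) :=
      AnalyticOnNhd.eqOn_of_preconnected_of_eventuallyEq (fun b hbb => (hb b hbb).1)
        (fun b hbb => (hb b hbb).2.1) (convex_ball a r).isPreconnected hq.2 hEv
    show f =ᶠ[𝓝 p] g
    filter_upwards [B1, B2, B3, B4] with q' c1 c2 c3 c4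
    have e := hEq c2
    simp only [Function.comp, (extChartAt I p).left_inv c1] at e
    exact (extChartAt J (f p)).injOn c3 c4 e
  have huniv : S = univ := IsClopen.eq_univ ⟨hclosed, hopen⟩ ⟨p₀, h⟩
  funext p
  have hpS : p ∈ S := by rw [huniv]; trivial
  have hpS' : f =ᶠ[𝓝 p] g := hpS
  exact hpS'.eq_of_nhds

variable {E : Type v} [NormedAddCommGroup E] [NormedSpace ℝ E] [CompleteSpace E]
  {Q : Type u} [TopologicalSpace Q] [ChartedSpace E Q] [Mul Q] [One Q] [IsLoop Q]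

theorem loc_of (hip : IP Q) (hsuf : SUF Q)
    (hmul : ContMDiff (𝓘(ℝ, E).prod 𝓘(ℝ, E)) 𝓘(ℝ, E) ω (fun p : Q × Q => p.1 * p.2))
    (hinv : Continuous (fun x : Q => ldiv x 1)) :
    Loc Q E (fun x : Q => ldiv x 1) 1 (fun x => extChartAt 𝓘(ℝ, E) (1 : Q) x - extChartAt 𝓘(ℝ, E) (1 : Q) 1)
      (fun a => (extChartAt 𝓘(ℝ, E) (1 : Q)).symm (a + extChartAt 𝓘(ℝ, E) (1 : Q) 1)) := by
  have tadd : Tendsto (fun a : E => a + extChartAt 𝓘(ℝ, E) (1 : Q) 1) (𝓝 0)
      (𝓝 (extChartAt 𝓘(ℝ, E) (1 : Q) 1)) := by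
    have : Continuous fun a : E => a + extChartAt 𝓘(ℝ, E) (1 : Q) 1 := by fun_prop
    exact this.tendsto' _ _ (zero_add _)
  have h11 : (1 : Q) * 1 = 1 := IsLoop.one_mul 1
  refine ⟨sys_of hip hsuf, IsLoop.mul_one, IsLoop.one_mul, fun x => mul_ldiv x 1, ?_, ?_, ?_, ?_, ?_, ?_,
    ?_, ?_⟩
  · exact sub_self _
  · have : Tendsto (fun x : Q => extChartAt 𝓘(ℝ, E) (1 : Q) x - extChartAt 𝓘(ℝ, E) (1 : Q) 1) (𝓝 1)
        (𝓝 (extChartAt 𝓘(ℝ, E) (1 : Q) 1 - extChartAt 𝓘(ℝ, E) (1 : Q) 1)) :=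
      (continuousAt_extChartAt (I := 𝓘(ℝ, E)) (1 : Q)).tendsto.sub_const _
    rwa [sub_self] at this
  · have := (continuousAt_extChartAt_symm (I := 𝓘(ℝ, E)) (1 : Q)).tendsto.comp tadd
    rwa [extChartAt_to_inv] at this
  · filter_upwards [extChartAt_source_mem_nhds (I := 𝓘(ℝ, E)) (1 : Q)] with x hx
    rw [sub_add_cancel, (extChartAt 𝓘(ℝ, E) (1 : Q)).left_inv hx]
  · filter_upwards [tadd.eventually (extChartAt_target_mem_nhds (I := 𝓘(ℝ, E)) (1 : Q))] with a ha
    rw [(extChartAt 𝓘(ℝ, E) (1 : Q)).right_inv ha, add_sub_cancel_right]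
  · have := hmul.continuous.tendsto ((1 : Q), (1 : Q))
    simp only [h11] at this
    exact this
  · have := hinv.tendsto (1 : Q)
    simp only [ldiv_one] at this
    exact this
  · have h := contMDiffAt_iff.1 (hmul ((1 : Q), (1 : Q)))
    have h2 := h.2
    rw [ModelWithCorners.range_eq_univ, contDiffWithinAt_univ] at h2
    simp only [h11] at h2
    have T : ContDiff ℝ ω (fun p : E × E =>
        (p.1 + extChartAt 𝓘(ℝ, E) (1 : Q) 1, p.2 + extChartAt 𝓘(ℝ, E) (1 : Q) 1)) :=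
      (contDiff_fst.add contDiff_const).prodMk (contDiff_snd.add contDiff_const)
    have T0 : (fun p : E × E =>
        (p.1 + extChartAt 𝓘(ℝ, E) (1 : Q) 1, p.2 + extChartAt 𝓘(ℝ, E) (1 : Q) 1)) 0 =
        extChartAt (𝓘(ℝ, E).prod 𝓘(ℝ, E)) ((1 : Q), (1 : Q)) ((1 : Q), (1 : Q)) := by
      simp
    rw [← T0] at h2
    have h3 := (h2.comp (0 : E × E) T.contDiffAt).sub
      (contDiffAt_const (c := extChartAt 𝓘(ℝ, E) (1 : Q) 1))
    refine h3.congr_of_eventuallyEq (Eventually.of_forall fun p => ?_)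
    simp only [Function.comp_apply, extChartAt_prod, PartialEquiv.prod_coe_symm]

/-- **Theorem** (global form). -/
theorem analytic_moufang [T2Space Q] [PreconnectedSpace Q] (hip : IP Q) (hsuf : SUF Q)
    (hmul : ContMDiff (𝓘(ℝ, E).prod 𝓘(ℝ, E)) 𝓘(ℝ, E) ω (fun p : Q × Q => p.1 * p.2))
    (hinv : Continuous (fun x : Q => ldiv x 1)) : Moufang Q := by
  have hloc := (loc_of (E := E) hip hsuf hmul hinv).local_moufang
  let I3 := 𝓘(ℝ, E).prod (𝓘(ℝ, E).prod 𝓘(ℝ, E))
  have a : ContMDiff I3 𝓘(ℝ, E) ω (fun p : Q × Q × Q => p.1) := contMDiff_fst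
  have b : ContMDiff I3 𝓘(ℝ, E) ω (fun p : Q × Q × Q => p.2.1) := contMDiff_fst.comp contMDiff_snd
  have c : ContMDiff I3 𝓘(ℝ, E) ω (fun p : Q × Q × Q => p.2.2) := contMDiff_snd.comp contMDiff_snd
  have mm : ∀ {f g : Q × Q × Q → Q}, ContMDiff I3 𝓘(ℝ, E) ω f → ContMDiff I3 𝓘(ℝ, E) ω g →
      ContMDiff I3 𝓘(ℝ, E) ω (fun p => f p * g p) := by
    intro f g hf hg
    exact hmul.comp (hf.prodMk hg)
  have hL : ContMDiff I3 𝓘(ℝ, E) ω (fun p : Q × Q × Q => (p.1 * (p.2.1 * p.2.2)) * p.1) :=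
    mm (mm a (mm b c)) a
  have hR : ContMDiff I3 𝓘(ℝ, E) ω (fun p : Q × Q × Q => (p.1 * p.2.1) * (p.2.2 * p.1)) :=
    mm (mm a b) (mm c a)
  have e := eq_of_eventuallyEq hL hR ((1 : Q), (1 : Q), (1 : Q)) hloc
  intro x y z
  exact congrFun e (x, y, z)

end Pool.Agent.helper45.AL
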